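import Pool.Agent.P8H15.FG.Stm3

/-!
# Project FG, third part: package GRID (from all scales to all lengths)
-/

set_option autoImplicit false

namespace Pool.Agent.P8H65.FG

open Finset ArithmeticFunction
open Pool.Agent.P8H15.FG

/-- the sum over the pairs -/
noncomputable def PP (X h : ℕ) : ℝ := ∑ n ∈ Icc 1 (X - h), vonMangoldt n * vonMangoldt (n + h)

lemma PP_mono {X Y h : ℕ} (hXY : X ≤ Y) : PP X h ≤ PP Y h := by
  unfold PP
  refine Finset.sum_le_sum_of_subset_of_nonneg (Finset.Icc_subset_Icc le_rfl (by omega))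
    (fun _ _ _ => ?_)
  exact mul_nonneg vonMangoldt_nonneg vonMangoldt_nonneg

lemma PP_nonneg (X h : ℕ) : 0 ≤ PP X h :=
  Finset.sum_nonneg fun _ _ => mul_nonneg vonMangoldt_nonneg vonMangoldt_nonneg

lemma grid_pts (N M : ℕ) (hM : 1 ≤ M) : ∃ G : Finset ℕ, G.card ≤ M + 1 ∧ (∀ x ∈ G, x ≤ N) ∧
    ∀ X : ℕ, X ≤ N → ∃ a ∈ G, ∃ b ∈ G, a ≤ X ∧ X ≤ b ∧ (b : ℝ) - a ≤ N / M + 1 := by
  have hM' : 0 < M := hM
  have hMR : (0 : ℝ) < M := by exact_mod_cast hM
  refine ⟨(range (M + 1)).image (fun i => N * i / M), ?_, ?_, ?_⟩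
  · exact Finset.card_image_le.trans (by rw [Finset.card_range])
  · intro x hx
    obtain ⟨i, hi, rfl⟩ := Finset.mem_image.1 hx
    have hi' : i ≤ M := by
      have := Finset.mem_range.1 hi
      omega
    exact Nat.div_le_of_le_mul (by rw [mul_comm M N]; exact Nat.mul_le_mul_left N hi')
  · intro X hX
    rcases Nat.lt_or_ge X N with h | h
    · have hN : 0 < N := by omega
      obtain ⟨i, hi⟩ : ∃ i, i = X * M / N := ⟨_, rfl⟩
      have h1 : N * i ≤ X * M := by
        rw [hi]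
        exact Nat.mul_div_le _ _
      have h2 : X * M < N * (i + 1) := by
        rw [hi]
        exact Nat.lt_mul_div_succ _ hN
      have hiM : i < M := by
        by_contra hc
        push Not at hc
        have h3 : N * M ≤ N * i := Nat.mul_le_mul_left N hc
        have h4 : X * M < N * M := Nat.mul_lt_mul_of_pos_right h hM'
        omega
      refine ⟨N * i / M, Finset.mem_image.2 ⟨i, Finset.mem_range.2 (by omega), rfl⟩,
        N * (i + 1) / M, Finset.mem_image.2 ⟨i + 1, Finset.mem_range.2 (by omega), rfl⟩, ?_, ?_, ?_⟩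
      · exact Nat.div_le_of_le_mul (by rw [mul_comm M X]; exact h1)
      · rw [Nat.le_div_iff_mul_le hM']
        exact h2.le
      · have e1 : ((N * (i + 1) / M : ℕ) : ℝ) ≤ ((N * (i + 1) : ℕ) : ℝ) / M := Nat.cast_div_le
        have e2 : ((N * i : ℕ) : ℝ) / M < ((N * i / M : ℕ) : ℝ) + 1 := by
          rw [div_lt_iff₀ hMR]
          have := Nat.lt_mul_div_succ (N * i) hM'
          rw [mul_comm M] at this
          exact_mod_cast this
        have e3 : ((N * (i + 1) : ℕ) : ℝ) / M = ((N * i : ℕ) : ℝ) / M + N / M := by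
          push_cast
          ring
        linarith
    · have hXN : X = N := by omega
      have e : N * M / M = N := Nat.mul_div_cancel _ hM'
      refine ⟨N, Finset.mem_image.2 ⟨M, Finset.mem_range.2 (by omega), e⟩,
        N, Finset.mem_image.2 ⟨M, Finset.mem_range.2 (by omega), e⟩, by omega, by omega, ?_⟩
      rw [sub_self]
      positivity

lemma core_ineq {X a b h : ℕ} {T s Δ : ℝ} (hs : 0 ≤ s) (haX : a ≤ X) (hXb : X ≤ b)
    (hab : (b : ℝ) - a ≤ Δ) (hhX : h ≤ X) (hb : |PP b h - s * ((b : ℝ) - h)| ≤ T)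
    (ha : h ≤ a → |PP a h - s * ((a : ℝ) - h)| ≤ T) :
    |PP X h - s * ((X : ℝ) - h)| ≤ T + s * Δ := by
  have hT : 0 ≤ T := (abs_nonneg _).trans hb
  have c1 : (a : ℝ) ≤ X := by exact_mod_cast haX
  have c2 : (X : ℝ) ≤ b := by exact_mod_cast hXb
  have c3 : (h : ℝ) ≤ X := by exact_mod_cast hhX
  have b1 := (abs_le.1 hb).2
  have m1 : PP X h ≤ PP b h := PP_mono hXb
  have s1 : s * ((b : ℝ) - X) ≤ s * Δ := mul_le_mul_of_nonneg_left (by linarith) hs
  have s2 : s * ((X : ℝ) - a) ≤ s * Δ := mul_le_mul_of_nonneg_left (by linarith) hs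
  rw [abs_le]
  constructor
  · rcases Nat.lt_or_ge a h with h1 | h1
    · have c4 : (a : ℝ) ≤ h := by exact_mod_cast h1.le
      have s3 : s * ((X : ℝ) - h) ≤ s * ((X : ℝ) - a) := mul_le_mul_of_nonneg_left (by linarith) hs
      have := PP_nonneg X h
      linarith
    · have a1 := (abs_le.1 (ha h1)).1
      have m2 : PP a h ≤ PP X h := PP_mono haX
      linarith
  · linarith

lemma count_le (N J : ℕ) (G : Finset ℕ) (Ex : ℕ → Finset ℕ) (B : ℕ → Prop) [DecidablePred B]
    (T : ℝ) (hB : ∀ k ∈ Icc 1 N, B k → ∃ x ∈ G, ∃ j ∈ Icc 1 J, j * k ∈ Ex x)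
    (hT : ∀ x ∈ G, ((Ex x).card : ℝ) ≤ T) :
    (((Icc 1 N).filter B).card : ℝ) ≤ G.card * J * T := by
  classical
  have h1 : (Icc 1 N).filter B ⊆ G.biUnion (fun x => (Icc 1 J).biUnion
      (fun j => (Icc 1 N).filter (fun k => j * k ∈ Ex x))) := by
    intro k hk
    rw [Finset.mem_filter] at hk
    obtain ⟨x, hx, j, hj, hjk⟩ := hB k hk.1 hk.2
    rw [Finset.mem_biUnion]
    refine ⟨x, hx, ?_⟩
    rw [Finset.mem_biUnion]
    exact ⟨j, hj, Finset.mem_filter.2 ⟨hk.1, hjk⟩⟩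
  have h2 : ((Icc 1 N).filter B).card ≤ ∑ x ∈ G, ∑ j ∈ Icc 1 J, (Ex x).card := by
    refine (Finset.card_le_card h1).trans (Finset.card_biUnion_le.trans ?_)
    refine Finset.sum_le_sum (fun x _ => Finset.card_biUnion_le.trans ?_)
    refine Finset.sum_le_sum (fun j hj => ?_)
    refine Finset.card_le_card_of_injOn (fun k => j * k) ?_ ?_
    · intro k hk
      exact (Finset.mem_filter.1 hk).2
    · intro k _ k' _ hkk
      exact Nat.eq_of_mul_eq_mul_left (by have := (Finset.mem_Icc.1 hj).1; omega) hkk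
  have h3 : (((Icc 1 N).filter B).card : ℝ) ≤ ∑ x ∈ G, ∑ j ∈ Icc 1 J, ((Ex x).card : ℝ) := by
    exact_mod_cast h2
  refine h3.trans ?_
  calc ∑ x ∈ G, ∑ j ∈ Icc 1 J, ((Ex x).card : ℝ) ≤ ∑ x ∈ G, ∑ j ∈ Icc 1 J, T :=
        Finset.sum_le_sum (fun x hx => Finset.sum_le_sum (fun j _ => hT x hx))
    _ = G.card * J * T := by
        rw [Finset.sum_const, Finset.sum_const, Nat.card_Icc, nsmul_eq_mul, nsmul_eq_mul]
        rw [Nat.add_sub_cancel]
        ring

/-- large `N` -/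
lemma large_N (L₀ : ℝ) (m N₁ : ℕ) : ∃ N₀ : ℕ, ∀ N : ℕ, N₀ ≤ N →
    L₀ ≤ Real.log N ∧ Real.log N ^ m ≤ N ∧ N₁ ≤ N ∧ 16 ≤ N := by
  have t1 : Filter.Tendsto (fun N : ℕ => Real.log N) Filter.atTop Filter.atTop :=
    Real.tendsto_log_atTop.comp tendsto_natCast_atTop_atTop
  have e1 := t1.eventually_ge_atTop L₀
  have e2 : ∀ᶠ N : ℕ in Filter.atTop, Real.log N ^ m ≤ N := by
    have h1 := (Real.isLittleO_pow_log_id_atTop (n := m)).comp_tendsto
      (tendsto_natCast_atTop_atTop (R := ℝ))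
    have h2 := h1.bound (one_pos)
    filter_upwards [h2, Filter.eventually_ge_atTop 1] with N hN hN1
    simp only [Function.comp_apply, id_eq, one_mul] at hN
    have h3 : |(N : ℝ)| = N := abs_of_nonneg (Nat.cast_nonneg N)
    rw [Real.norm_eq_abs, Real.norm_eq_abs, h3] at hN
    exact (le_abs_self _).trans hN
  obtain ⟨N₀, h⟩ := Filter.eventually_atTop.1 (e1.and (e2.and
    ((Filter.eventually_ge_atTop N₁).and (Filter.eventually_ge_atTop 16))))
  exact ⟨N₀, fun N hN => h N hN⟩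

/-- **GRID.** -/
theorem grid : S_PALL → S_SGB → S_GRID := by
  classical
  intro hP hS A V E
  obtain ⟨E', hE'⟩ : ∃ E' : ℕ, E' = E + A + V + 5 := ⟨_, rfl⟩
  obtain ⟨N₁, hN₁⟩ := hP E'
  obtain ⟨C, hC, hsg⟩ := hS
  obtain ⟨N₀, hN₀⟩ := large_N (2 ^ (E' + 1) + 4 * C + 4) (2 * A + E + 3) (N₁ ^ 2)
  refine ⟨N₀, fun N hN => ?_⟩
  obtain ⟨g1, g2, g3, g4⟩ := hN₀ N hN
  obtain ⟨l, hl⟩ : ∃ l : ℝ, l = Real.log N := ⟨_, rfl⟩
  rw [← hl] at g1 g2 ⊢
  have hp2 : (0 : ℝ) < 2 ^ (E' + 1) := by positivity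
  have l1 : 1 ≤ l := by linarith
  have l0 : 0 < l := by linarith
  have l4 : 4 ≤ l := by linarith
  have l2 : 2 ^ (E' + 1) ≤ l := by linarith
  have l3 : 4 * C ≤ l := by linarith
  have hNpos : (0 : ℝ) < N := by
    have : 0 < N := by omega
    exact_mod_cast this
  have lA : l ^ (2 * A) ≤ N := (pow_le_pow_right₀ l1 (by omega)).trans g2
  have lE : l ^ (E + 3) ≤ N := (pow_le_pow_right₀ l1 (by omega)).trans g2
  obtain ⟨M, hM⟩ : ∃ M : ℕ, M = ⌈l ^ (E + 3)⌉₊ := ⟨_, rfl⟩
  have hM1 : l ^ (E + 3) ≤ M := by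
    rw [hM]
    exact Nat.le_ceil _
  have hM2 : (M : ℝ) ≤ l ^ (E + 3) + 1 := by
    rw [hM]
    exact (Nat.ceil_lt_add_one (by positivity)).le
  have hpos3 : 0 < l ^ (E + 3) := by positivity
  have hM3 : 1 ≤ M := by
    have : (0 : ℝ) < M := lt_of_lt_of_le hpos3 hM1
    exact_mod_cast this
  obtain ⟨Gr, hG1, hG2, hG3⟩ := grid_pts N M hM3
  obtain ⟨J, hJ⟩ : ∃ J : ℕ, J = ⌊l ^ A⌋₊ := ⟨_, rfl⟩
  have hJ1 : (J : ℝ) ≤ l ^ A := by
    rw [hJ]
    exact Nat.floor_le (by positivity)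
  obtain ⟨T, hT⟩ : ∃ T : ℝ, T = N * 2 ^ E' / l ^ E' := ⟨_, rfl⟩
  have hT0 : 0 ≤ T := by
    rw [hT]
    positivity
  -- the scales
  have hscale : ∀ x : ℕ, x ≤ N → (N : ℝ) ≤ x * l ^ A → N₁ ≤ x ∧ (x : ℝ) / Real.log x ^ E' ≤ T := by
    intro x hxN hx
    have x0 : (0 : ℝ) ≤ x := Nat.cast_nonneg x
    have hxx : (N : ℝ) ≤ (x : ℝ) ^ 2 := by
      have h1 : (N : ℝ) * N ≤ (x * l ^ A) * (x * l ^ A) := mul_le_mul hx hx hNpos.le (by positivity)
      have h2 : ((x : ℝ) * l ^ A) * (x * l ^ A) = x ^ 2 * l ^ (2 * A) := by ring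
      rw [h2] at h1
      have h3 : (x : ℝ) ^ 2 * l ^ (2 * A) ≤ x ^ 2 * N := mul_le_mul_of_nonneg_left lA (by positivity)
      have h4 : (N : ℝ) * N ≤ x ^ 2 * N := h1.trans h3
      exact le_of_mul_le_mul_right h4 hNpos
    have hxx' : N ≤ x ^ 2 := by exact_mod_cast hxx
    have xpos : (0 : ℝ) < x := by
      rcases x0.lt_or_eq with h | h
      · exact h
      · rw [← h] at hxx
        norm_num at hxx
        omega
    refine ⟨?_, ?_⟩
    · by_contra h
      push Not at h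
      have h1 : x ^ 2 < N₁ ^ 2 := Nat.pow_lt_pow_left h (by norm_num)
      omega
    · have h1 : l ≤ 2 * Real.log x := by
        have h2 := Real.log_le_log hNpos hxx
        rw [Real.log_pow] at h2
        rw [hl]
        exact_mod_cast h2
      have h2 : l / 2 ≤ Real.log x := by linarith
      have h3 : (l / 2) ^ E' ≤ Real.log x ^ E' := pow_le_pow_left₀ (by positivity) h2 E'
      have h4 : (x : ℝ) ≤ N := by exact_mod_cast hxN
      have h5 : T = N / (l / 2) ^ E' := by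
        rw [hT, div_pow]
        field_simp
      rw [h5]
      exact div_le_div₀ hNpos.le h4 (by positivity) h3
  -- the exceptional differences
  obtain ⟨Ex, hEx⟩ : ∃ Ex : ℕ → Finset ℕ, Ex = fun x => @Finset.filter ℕ (fun h => ¬ PairN E' x h)
    (fun _ => Classical.propDecidable _) (Icc 1 x) := ⟨_, rfl⟩
  obtain ⟨Gf, hGf⟩ : ∃ Gf : Finset ℕ, Gf = Gr.filter (fun x : ℕ => (N : ℝ) ≤ (x : ℝ) * l ^ A) :=
    ⟨_, rfl⟩
  have hcount := @count_le N J Gf Ex
    (fun k => (N : ℝ) ≤ k * l ^ A ∧ ¬ ∀ X : ℕ, k ≤ X → X ≤ N → ∀ j : ℕ, 1 ≤ j → j * k ≤ X →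
      |∑ n ∈ Icc 1 (X - j * k), vonMangoldt n * vonMangoldt (n + j * k) -
        sg (j * k) * ((X : ℝ) - j * k)| ≤ N / l ^ E) (fun _ => Classical.propDecidable _) T (by
      intro k hk hbad
      obtain ⟨hk1, hk2⟩ := hbad
      have kpos : 1 ≤ k := (Finset.mem_Icc.1 hk).1
      have kposR : (0 : ℝ) < k := by exact_mod_cast kpos
      by_contra hno
      push Not at hno
      apply hk2
      intro X hkX hXN j hj hjX
      obtain ⟨h, hh⟩ : ∃ h, h = j * k := ⟨_, rfl⟩
      have hhR : (h : ℝ) = (j : ℝ) * k := by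
        rw [hh]
        push_cast
        rfl
      have hkh : k ≤ h := by
        rw [hh]
        exact Nat.le_mul_of_pos_left k hj
      rw [← hh] at hjX ⊢
      rw [← hhR]
      have hjJ : j ∈ Icc 1 J := by
        rw [Finset.mem_Icc]
        refine ⟨hj, ?_⟩
        rw [hJ]
        refine Nat.le_floor ?_
        have h1 : (j : ℝ) * k ≤ l ^ A * k := by
          rw [← hhR, mul_comm (l ^ A)]
          refine le_trans ?_ hk1
          exact_mod_cast hjX.trans hXN
        exact le_of_mul_le_mul_right h1 kposR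
      have hgood : ∀ x ∈ Gr, h ≤ x → |PP x h - sg h * ((x : ℝ) - h)| ≤ T := by
        intro x hx hhx
        have h1 : (N : ℝ) ≤ x * l ^ A := by
          refine hk1.trans (mul_le_mul_of_nonneg_right ?_ (by positivity))
          exact_mod_cast hkh.trans hhx
        have h2 := hno x (by rw [hGf]; exact Finset.mem_filter.2 ⟨hx, h1⟩) j hjJ
        rw [← hh, hEx] at h2
        simp only [Finset.mem_filter, Finset.mem_Icc, not_and, not_not] at h2
        have h3 := h2 ⟨kpos.trans hkh, hhx⟩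
        exact h3.trans (hscale x (hG2 x hx) h1).2
      obtain ⟨a, ha, b, hb, haX, hXb, hab⟩ := hG3 X hXN
      obtain ⟨s0, s1⟩ := hsg h N g4 (kpos.trans hkh) (hjX.trans hXN)
      have h4 := core_ineq s0 haX hXb hab hjX (hgood b hb (hjX.trans hXb)) (fun h1 => hgood a ha h1)
      refine le_trans h4 ?_
      have h5 : sg h ≤ C * l := by
        refine s1.trans (mul_le_mul_of_nonneg_left ?_ hC.le)
        rw [← hl]
        have := Real.log_le_sub_one_of_pos l0
        linarith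
      have h6 : (N : ℝ) / M + 1 ≤ 2 * (N / l ^ (E + 3)) := by
        have h7 : (N : ℝ) / M ≤ N / l ^ (E + 3) := div_le_div_of_nonneg_left hNpos.le hpos3 hM1
        have h8 : 1 ≤ (N : ℝ) / l ^ (E + 3) := by
          rw [le_div_iff₀ hpos3]
          linarith
        linarith
      have h7 : sg h * (N / M + 1) ≤ (C * l) * (2 * (N / l ^ (E + 3))) :=
        mul_le_mul h5 h6 (by positivity) (by positivity)
      have h8 : (C * l) * (2 * (N / l ^ (E + 3))) ≤ N / l ^ E / 2 := by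
        have e : (C * l) * (2 * (N / l ^ (E + 3))) = (4 * C) * (N / l ^ E / 2) / l ^ 2 := by
          field_simp
          ring
        rw [e, div_le_iff₀ (by positivity), mul_comm]
        refine mul_le_mul_of_nonneg_left ?_ (by positivity)
        nlinarith
      have h9 : T ≤ N / l ^ E / 2 := by
        rw [hT]
        have e : (N : ℝ) * 2 ^ E' / l ^ E' = 2 ^ (E' + 1) * (N / l ^ E / 2) / l ^ (A + V + 5) := by
          rw [hE', show E + A + V + 5 = E + (A + V + 5) by ring, pow_add l E]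
          field_simp
          ring
        rw [e, div_le_iff₀ (by positivity), mul_comm]
        refine mul_le_mul_of_nonneg_left (l2.trans ?_) (by positivity)
        calc l = l ^ 1 := (pow_one l).symm
          _ ≤ l ^ (A + V + 5) := pow_le_pow_right₀ l1 (by omega)
      linarith) (by
      intro x hx
      rw [hGf, Finset.mem_filter] at hx
      obtain ⟨h1, h2⟩ := hscale x (hG2 x hx.1) hx.2
      refine le_trans ?_ h2
      have h3 := hN₁ x h1
      rw [hEx]
      exact h3)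
  have hfin : (Gf.card : ℝ) * J * T ≤ N / l ^ V := by
    have h1 : (Gf.card : ℝ) ≤ 2 * l ^ (E + 3) := by
      have h2 : Gf.card ≤ M + 1 := by
        rw [hGf]
        exact (Finset.card_filter_le _ _).trans hG1
      have h3 : (Gf.card : ℝ) ≤ M + 1 := by exact_mod_cast h2
      have h4 : (4 : ℝ) ≤ l ^ (E + 3) := by
        calc (4 : ℝ) ≤ l := l4
          _ = l ^ 1 := (pow_one l).symm
          _ ≤ l ^ (E + 3) := pow_le_pow_right₀ l1 (by omega)
      linarith
    have h2 : (Gf.card : ℝ) * J ≤ 2 * l ^ (E + 3) * l ^ A :=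
      mul_le_mul h1 hJ1 (Nat.cast_nonneg _) (by positivity)
    refine (mul_le_mul_of_nonneg_right h2 hT0).trans ?_
    have e : 2 * l ^ (E + 3) * l ^ A * T = 2 ^ (E' + 1) * (N / l ^ V) / l ^ 2 := by
      rw [hT, hE', show E + A + V + 5 = (E + 3) + A + V + 2 by ring, pow_add l (E + 3 + A + V),
        pow_add l (E + 3 + A), pow_add l (E + 3)]
      field_simp
      ring
    rw [e, div_le_iff₀ (by positivity), mul_comm]
    refine mul_le_mul_of_nonneg_left (l2.trans ?_) (by positivity)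
    nlinarith
  exact hcount.trans hfin

end Pool.Agent.P8H65.FG
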